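import Pool.Agent.Run7.h290.Additive

namespace Pool.Agent.Results.MP_c34bd5_al.FillingAdditivity

open Run7.h290

/-- If the Whitehead graph of a word `w` is connected without cut vertex, then under every
automorphism the cyclic length is additive on the products `(w b₁)(w b₂)...(w bₖ)`. -/
theorem result (r : ℕ) (hr : 2 ≤ r) (w : List (Fin r × Bool)) (hw : Filling w)
    (B : List (List (Fin r × Bool))) (hB : B ≠ [])
    (hred : ∀ b ∈ B, FreeGroup.IsReduced (w ++ b ++ w))
    (φ : FreeGroup (Fin r) ≃* FreeGroup (Fin r)) :
    cycLen (φ (FreeGroup.mk (B.map (fun b => w ++ b)).flatten)) =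
      (B.map (fun b => cycLen (φ (FreeGroup.mk (w ++ b))))).sum := by
  have : Nontrivial (Fin r) := Fin.nontrivial_iff_two_le.2 hr
  exact additive (⟨0, by omega⟩, true) φ hw hB hred

end Pool.Agent.Results.MP_c34bd5_al.FillingAdditivity
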