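import Pool.Agent.Run7.h290.Criterion

namespace Pool.Agent.Results.MP_c34bd5_al.OccurrenceCriterion

open Run7.h290

/-- Two cyclically reduced words are translation equivalent as soon as every word whose interior
(the word without its first and last letters) is not filling occurs equally often in both of
them, occurrences in a cyclic word and in its inverse being counted together. -/
theorem result (r : ℕ) (hr : 2 ≤ r) (u v : List (Fin r × Bool)) (hu : u ≠ []) (hv : v ≠ [])
    (hcu : FreeGroup.IsCyclicallyReduced u) (hcv : FreeGroup.IsCyclicallyReduced v)
    (h : ∀ w : List (Fin r × Bool), ¬ Filling w.tail.dropLast →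
      occ w u + occ w (FreeGroup.invRev u) = occ w v + occ w (FreeGroup.invRev v)) :
    TransEq (FreeGroup.mk u) (FreeGroup.mk v) := by
  have : Nontrivial (Fin r) := Fin.nontrivial_iff_two_le.2 hr
  exact criterion (⟨0, by omega⟩, true) hu hv hcu hcv h

end Pool.Agent.Results.MP_c34bd5_al.OccurrenceCriterion
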