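import Pool.Agent.Run7.h290.Bounded

namespace Pool.Agent.Results.MP_c34bd5_al.UnifFillingBounded

open Run7.h290

/-- Bounded translation equivalence is decidable on the class of cyclic words in a free group of
rank `r ≥ 2` all of whose cyclic factors of length `L` have a connected Whitehead graph without
cut vertex. -/
theorem result (r L : ℕ) (hr : 2 ≤ r) :
    ComputablePred (fun p : List (Fin r × Bool) × List (Fin r × Bool) =>
      UnifFilling L p.1 ∧ UnifFilling L p.2 ∧
        BddTransEq (FreeGroup.mk p.1) (FreeGroup.mk p.2)) := by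
  classical
  have : Nontrivial (Fin r) := Fin.nontrivial_iff_two_le.2 hr
  have d : Fin r × Bool := (⟨0, by omega⟩, true)
  apply PrimrecPred.computablePred'
  have h1 : PrimrecPred (fun p : List (Fin r × Bool) × List (Fin r × Bool) =>
      UnifFilling L p.1) := (primrecPred_unif d L).comp Primrec.fst
  have h2 : PrimrecPred (fun p : List (Fin r × Bool) × List (Fin r × Bool) =>
      UnifFilling L p.2) := (primrecPred_unif d L).comp Primrec.snd
  let T : Finset (Finset (Fin (L+1) → Fin r × Bool) × Finset (Fin (L+1) → Fin r × Bool)) :=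
    Finset.univ.filter (fun AB => RS d L AB.1 AB.2)
  have h3 : PrimrecPred (fun p : List (Fin r × Bool) × List (Fin r × Bool) =>
      ∃ AB ∈ T, supp d L p.1 = AB.1 ∧ supp d L p.2 = AB.2) := by
    apply primrecPred_finset_ex T
      (fun AB (p : List (Fin r × Bool) × List (Fin r × Bool)) =>
        supp d L p.1 = AB.1 ∧ supp d L p.2 = AB.2)
    intro AB _
    exact ((primrecPred_supp d L AB.1).comp Primrec.fst).and
      ((primrecPred_supp d L AB.2).comp Primrec.snd)
  refine (h1.and (h2.and h3)).of_eq ?_
  rintro ⟨u, v⟩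
  simp only
  constructor
  · rintro ⟨hu, hv, ⟨A, B⟩, hAB, h5, h6⟩
    refine ⟨hu, hv, ?_⟩
    rw [bdd_iff_RS d hu hv]
    have := (Finset.mem_filter.1 hAB).2
    simp only at h5 h6 this
    rw [h5, h6]
    exact this
  · rintro ⟨hu, hv, h⟩
    refine ⟨hu, hv, (supp d L u, supp d L v), ?_, rfl, rfl⟩
    exact Finset.mem_filter.2 ⟨Finset.mem_univ _, (bdd_iff_RS d hu hv).1 h⟩

end Pool.Agent.Results.MP_c34bd5_al.UnifFillingBounded
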