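import Pool.Agent.Run7.h290.Decide

namespace Pool.Agent.Results.MP_c34bd5_al.UnifFillingDecidable

open Run7.h290

/-- Translation equivalence is decidable on the class of cyclic words in a free group of rank
`r ≥ 2` all of whose cyclic factors of length `L` have a connected Whitehead graph without cut
vertex. -/
theorem result (r L : ℕ) (hr : 2 ≤ r) :
    ComputablePred (fun p : List (Fin r × Bool) × List (Fin r × Bool) =>
      UnifFilling L p.1 ∧ UnifFilling L p.2 ∧
        TransEq (FreeGroup.mk p.1) (FreeGroup.mk p.2)) := by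
  have : Nontrivial (Fin r) := Fin.nontrivial_iff_two_le.2 hr
  have d : Fin r × Bool := (⟨0, by omega⟩, true)
  obtain ⟨Φ, hΦ⟩ := exists_finite_tests d L
  apply PrimrecPred.computablePred'
  have h1 : PrimrecPred (fun p : List (Fin r × Bool) × List (Fin r × Bool) =>
      UnifFilling L p.1) := (primrecPred_unif d L).comp Primrec.fst
  have h2 : PrimrecPred (fun p : List (Fin r × Bool) × List (Fin r × Bool) =>
      UnifFilling L p.2) := (primrecPred_unif d L).comp Primrec.snd
  have h3 : PrimrecPred (fun p : List (Fin r × Bool) × List (Fin r × Bool) =>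
      ∀ φ ∈ Φ, S d L (cw d L φ) p.1 = S d L (cw d L φ) p.2) :=
    primrecPred_finset_all Φ _ (fun φ _ => primrecPred_S_eq d L (cw d L φ))
  refine (h1.and (h2.and h3)).of_eq ?_
  rintro ⟨u, v⟩
  constructor
  · rintro ⟨hu, hv, h⟩
    refine ⟨hu, hv, ?_⟩
    intro φ
    rw [cycLen_eq_S d φ hu, cycLen_eq_S d φ hv]
    exact hΦ u v h φ
  · rintro ⟨hu, hv, h⟩
    refine ⟨hu, hv, ?_⟩
    intro φ _
    rw [← cycLen_eq_S d φ hu, ← cycLen_eq_S d φ hv]
    exact h φ

end Pool.Agent.Results.MP_c34bd5_al.UnifFillingDecidable
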